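import Pool.Agent.H315R2.EB.Stubs

/-!
# APC: an apartment which contains a chamber comes from an adapted sequence
-/

namespace Pool.Agent.H359R2.EB

open Module
open scoped Pointwise
open Pool.Agent.H315R2.EB

theorem APC_proof (hV : St_VAL) (_hH : St_HOM) (hL : St_LAM) : St_APC := by
  intro O K V _ _ _ _ _ _ _ _ _ _ _ p hp m hm hfr L b hC ha
  obtain ⟨hlat, hmem, hle, hhom⟩ := hL O K V p hp (Fin m) b
  obtain ⟨_, hval⟩ := hV O K p hp
  choose a ha using ha
  have hinj : ∀ x y : Fin m → ℤ, Lam O p b x = Lam O p b y → x = y := by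
    intro x y hxy
    funext i
    exact le_antisymm ((hle y x).1 hxy.symm.le i) ((hle x y).1 hxy.le i)
  -- one step
  have hstep : ∀ k, ∃ t : Fin m, a (k + 1) = Function.update (a k) t (a k t + 1) := by
    intro k
    have hcov := hC.cov k
    have h1 : ∀ i, a k i ≤ a (k + 1) i := by
      have := hcov.lt.le
      rw [ha k, ha (k + 1)] at this
      exact (hle _ _).1 this
    have h2 : ∃ t, a k t < a (k + 1) t := by
      by_contra hcon
      push Not at hcon
      have h3 : a (k + 1) = a k := by
        funext i
        exact le_antisymm (hcon i) (h1 i)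
      apply hcov.lt.ne
      rw [ha k, ha (k + 1), h3]
    obtain ⟨t, ht⟩ := h2
    refine ⟨t, ?_⟩
    have h4 : L (k + 1) ≤ Lam O p b (Function.update (a k) t (a k t + 1)) := by
      rw [ha (k + 1), hle]
      intro i
      by_cases hi : i = t
      · subst hi
        rw [Function.update_self]
        omega
      · rw [Function.update_of_ne hi]
        exact h1 i
    have h5 : Lam O p b (Function.update (a k) t (a k t + 1)) ≤ L k := by
      rw [ha k, hle]
      intro i
      by_cases hi : i = t
      · subst hi
        rw [Function.update_self]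
        omega
      · rw [Function.update_of_ne hi]
    rcases hcov.eq_or_eq h4 h5 with h6 | h6
    · rw [ha (k + 1)] at h6
      exact (hinj _ _ h6).symm
    · exfalso
      rw [ha k] at h6
      have h7 := congrFun (hinj _ _ h6) t
      rw [Function.update_self] at h7
      omega
  choose t ht using hstep
  have hper : ∀ k i, a (k + m) i = a k i + 1 := by
    intro k i
    have h1 := hC.per k
    have h2 := hhom (a k) 1
    rw [zpow_one] at h2
    rw [ha k, h2, ha (k + m)] at h1
    exact congrFun (hinj _ _ h1) i
  have htper : ∀ k, t (k + m) = t k := by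
    intro k
    by_contra hcon
    have h1 := congrFun (ht (k + m)) (t k)
    rw [Function.update_of_ne (Ne.symm hcon)] at h1
    have h2 := hper (k + 1) (t k)
    have h3 := hper k (t k)
    have h4 := congrFun (ht k) (t k)
    rw [Function.update_self] at h4
    rw [show k + (m : ℤ) + 1 = k + 1 + m by ring] at h1
    omega
  refine ⟨fun k => p ^ a k (t k) • b (t k), ⟨?_, ?_, ?_⟩, ?_⟩
  · intro k
    rw [ha k]
    exact Submodule.subset_span ⟨t k, rfl⟩
  · intro k hk
    rw [ha (k + 1), ht k, hmem] at hk
    obtain ⟨r, hr⟩ := hk (t k)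
    rw [Function.update_self] at hr
    have h1 : b.repr (p ^ a k (t k) • b (t k)) (t k) = ((p ^ a k (t k) : Kˣ) : K) := by
      rw [Units.smul_def, map_smul, Basis.repr_self, Finsupp.smul_apply,
        Finsupp.single_eq_same, smul_eq_mul, mul_one]
    rw [h1] at hr
    have h2 : ((p ^ (-1 : ℤ) : Kˣ) : K) = algebraMap O K r := by
      have h3 : ((p ^ (a k (t k) + 1) : Kˣ) : K) ≠ 0 := Units.ne_zero _
      have h4 : ((p ^ (-1 : ℤ) : Kˣ) : K) * ((p ^ (a k (t k) + 1) : Kˣ) : K)
          = algebraMap O K r * ((p ^ (a k (t k) + 1) : Kˣ) : K) := by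
        rw [← hr, ← Units.val_mul, ← zpow_add]
        congr 2
        ring
      exact mul_right_cancel₀ h3 h4
    have h5 := (hval (-1)).1 ⟨r, h2.symm⟩
    omega
  · intro k
    rw [htper, hper, zpow_add, zpow_one, mul_comm, mul_smul]
  · -- the permutation
    have hsurj : Function.Surjective (fun i : Fin m => t ((i : ℕ) : ℤ)) := by
      intro i
      by_contra hcon
      push Not at hcon
      have h1 : ∀ n : ℕ, n ≤ m → a (n : ℤ) i = a 0 i := by
        intro n
        induction n with
        | zero => intro _; rfl
        | succ n ih =>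
          intro hn
          have h2 := congrFun (ht (n : ℤ)) i
          have h3 : i ≠ t (n : ℤ) := fun h => hcon ⟨n, by omega⟩ h.symm
          rw [Function.update_of_ne h3] at h2
          rw [Nat.cast_succ, h2]
          exact ih (by omega)
      have h2 := h1 m le_rfl
      have h3 := hper 0 i
      rw [zero_add] at h3
      omega
    have hbij : Function.Bijective (fun i : Fin m => t ((i : ℕ) : ℤ)) :=
      Finite.surjective_iff_bijective.1 hsurj
    refine ⟨Equiv.ofBijective _ hbij, fun i => a ((i : ℕ) : ℤ) (t ((i : ℕ) : ℤ)), ?_⟩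
    intro i
    rfl

end Pool.Agent.H359R2.EB
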